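import Pool.Agent.Helper91.LC.Spec

/-!
# LC-7: the nonlinearity `f v - v`
-/

namespace Pool.Agent.Helper30.LC

open Complex Metric Set
open Pool.Agent.Helper91.LC

lemma sqrt3_lower : (0.4 : ℝ) < √3 / 4 := by
  have : (1.7 : ℝ) < √3 := by
    rw [Real.lt_sqrt (by norm_num)]
    norm_num
  linarith

lemma inv_sqrt3_lt : 1 / √3 < (1 : ℝ) := by
  have : (1 : ℝ) < √3 := by
    rw [Real.lt_sqrt (by norm_num)]
    norm_num
  rw [div_lt_one (by positivity)]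
  exact this

lemma mem_ball_of_le {v : ℂ} {r : ℝ} (hv : ‖v‖ ≤ r) (hr : r ≤ 0.4) :
    v ∈ ball (0 : ℂ) (√3 / 4) := by
  rw [mem_ball_zero_iff]
  exact (hv.trans hr).trans_lt sqrt3_lower

/-- The representation of the nonlinearity. -/
lemma rep {F f : ℂ → ℂ} (hG : Good F) (hI : Inv F f) : ∃ (b3 b4 : ℂ) (M : ℂ → ℂ),
    ‖b3‖ ≤ 1 / 3 ∧ ‖b4‖ ≤ 1.38 ∧ DifferentiableOn ℂ M (ball 0 1) ∧
    (∀ z : ℂ, ‖z‖ ≤ 1 / 3 → ‖M z‖ ≤ 2.29) ∧
    ∀ v ∈ ball (0 : ℂ) (√3 / 4),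
      f v - v = -(f v ^ 3 * (b3 + f v * (b4 + f v * M (f v)))) := by
  obtain ⟨b3, b4, M, hb3, hb4, hM, hMb, hF⟩ := Spec.coeffs hG
  refine ⟨b3, b4, M, hb3, hb4, hM, hMb, fun v hv => ?_⟩
  have h1 : f v ∈ ball (0 : ℂ) 1 := by
    rw [mem_ball_zero_iff]
    exact (hI.lt v hv).trans inv_sqrt3_lt
  have h2 := hF (f v) h1
  rw [hI.eq v hv] at h2
  linear_combination (-1 : ℂ) * h2

lemma poly_bound {b3 b4 m z : ℂ} {x : ℝ} (hx : 0 ≤ x) (hz : ‖z‖ ≤ x) (h3 : ‖b3‖ ≤ 1 / 3)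
    (h4 : ‖b4‖ ≤ 1.38) (hm : ‖m‖ ≤ 2.29) :
    ‖z ^ 3 * (b3 + z * (b4 + z * m))‖ ≤ x ^ 3 * (1 / 3 + x * (1.38 + x * 2.29)) := by
  have h5 : ‖z * m‖ ≤ x * 2.29 := by
    rw [norm_mul]
    exact mul_le_mul hz hm (norm_nonneg _) hx
  have h6 : ‖b4 + z * m‖ ≤ 1.38 + x * 2.29 := (norm_add_le _ _).trans (add_le_add h4 h5)
  have h7 : ‖z * (b4 + z * m)‖ ≤ x * (1.38 + x * 2.29) := by
    rw [norm_mul]
    exact mul_le_mul hz h6 (norm_nonneg _) hx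
  have h8 : ‖b3 + z * (b4 + z * m)‖ ≤ 1 / 3 + x * (1.38 + x * 2.29) :=
    (norm_add_le _ _).trans (add_le_add h3 h7)
  rw [norm_mul, norm_pow]
  exact mul_le_mul (pow_le_pow_left₀ (norm_nonneg _) hz 3) h8 (norm_nonneg _) (by positivity)

lemma eta_bound {F f : ℂ → ℂ} (hG : Good F) (hI : Inv F f) {v : ℂ} (hv : v ∈ ball (0 : ℂ) (√3 / 4))
    {x : ℝ} (hx : 0 ≤ x) (hx1 : x ≤ 1 / 3) (hf : ‖f v‖ ≤ x) :
    ‖f v - v‖ ≤ x ^ 3 * (1 / 3 + x * (1.38 + x * 2.29)) := by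
  obtain ⟨b3, b4, M, hb3, hb4, _, hMb, hrep⟩ := rep hG hI
  rw [hrep v hv, norm_neg]
  exact poly_bound hx hf hb3 hb4 (hMb _ (hf.trans hx1))

/-- LC-7 -/
theorem eta_le_30 {F f : ℂ → ℂ} (hG : Good F) (hI : Inv F f) {v : ℂ} (hv : ‖v‖ ≤ 0.3) :
    ‖f v - v‖ ≤ 0.03144 := by
  refine (eta_bound hG hI (mem_ball_of_le hv (by norm_num)) (by norm_num) (by norm_num)
    (Spec.f_le_30 hG hI hv)).trans ?_
  norm_num

/-- LC-7 -/
theorem eta_le_313 {F f : ℂ → ℂ} (hG : Good F) (hI : Inv F f) {v : ℂ} (hv : ‖v‖ ≤ 0.3128) :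
    ‖f v - v‖ ≤ 0.03794 := by
  refine (eta_bound hG hI (mem_ball_of_le hv (by norm_num)) (by norm_num) (by norm_num)
    (Spec.f_le_313 hG hI hv)).trans ?_
  norm_num

/-- LC-7 -/
theorem eta_le_025 {F f : ℂ → ℂ} (hG : Good F) (hI : Inv F f) {v : ℂ} (hv : ‖v‖ ≤ 0.025) :
    ‖f v - v‖ ≤ 0.0000059 := by
  refine (eta_bound hG hI (mem_ball_of_le hv (by norm_num)) (by norm_num) (by norm_num)
    (Spec.f_le_025 hG hI hv)).trans ?_
  norm_num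

/-! ### the mean square -/

lemma closedBall_subset {ρ : ℝ} (hρ : 0.3 < ρ) : closedBall (0 : ℂ) 0.3 ⊆ ball 0 ρ :=
  closedBall_subset_ball hρ

lemma circleIntegrable_of {E : Type*} [NormedAddCommGroup E] {g : ℂ → E} {ρ : ℝ} (hρ : 0.3 < ρ)
    (hg : ContinuousOn g (ball 0 ρ)) : CircleIntegrable g 0 0.3 := by
  refine ContinuousOn.circleIntegrable (by norm_num) (hg.mono ?_)
  exact sphere_subset_closedBall.trans (closedBall_subset hρ)

lemma mean_eq {g : ℂ → ℂ} {ρ : ℝ} (hρ : 0.3 < ρ) (hg : DifferentiableOn ℂ g (ball 0 ρ)) :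
    Real.circleAverage g 0 0.3 = g 0 := by
  have h : DiffContOnCl ℂ g (ball 0 |(0.3 : ℝ)|) := by
    rw [abs_of_pos (by norm_num)]
    exact hg.diffContOnCl_ball (closedBall_subset hρ)
  exact h.circleAverage

lemma mean_sq {g : ℂ → ℂ} {ρ : ℝ} (hρ : 0.3 < ρ) (hg : DifferentiableOn ℂ g (ball 0 ρ))
    (h0 : g 0 = 0) (b : ℂ) :
    Real.circleAverage (fun v => ‖b + g v‖ ^ 2) 0 0.3 =
      ‖b‖ ^ 2 + Real.circleAverage (fun v => ‖g v‖ ^ 2) 0 0.3 := by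
  have hc : ContinuousOn g (ball 0 ρ) := hg.continuousOn
  let L : ℂ →L[ℝ] ℝ := (2 : ℝ) • (Complex.reCLM.comp
    ((ContinuousLinearMap.mul ℝ ℂ) ((starRingEnd ℂ) b)))
  have hL : ∀ z, L z = 2 * ((starRingEnd ℂ) b * z).re := fun z => rfl
  have e1 : (fun v => ‖b + g v‖ ^ 2) = fun v => ‖b‖ ^ 2 + (‖g v‖ ^ 2 + L (g v)) := by
    funext v
    rw [hL, ← Complex.normSq_eq_norm_sq, ← Complex.normSq_eq_norm_sq, ← Complex.normSq_eq_norm_sq,
      Complex.normSq_add]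
    simp only [Complex.mul_re, Complex.conj_re, Complex.conj_im]
    ring
  have i1 : CircleIntegrable (fun v => ‖g v‖ ^ 2) 0 0.3 := circleIntegrable_of hρ (hc.norm.pow 2)
  have i2 : CircleIntegrable (fun v => L (g v)) 0 0.3 :=
    circleIntegrable_of hρ (L.continuous.comp_continuousOn hc)
  have i3 : CircleIntegrable g 0 0.3 := circleIntegrable_of hρ hc
  have i4 : CircleIntegrable (fun v => ‖g v‖ ^ 2 + L (g v)) 0 0.3 := i1.add i2
  have e4 : Real.circleAverage (fun v => ‖b‖ ^ 2 + (‖g v‖ ^ 2 + L (g v))) 0 0.3 =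
      Real.circleAverage (fun _ => ‖b‖ ^ 2) 0 0.3 +
        Real.circleAverage (fun v => ‖g v‖ ^ 2 + L (g v)) 0 0.3 :=
    Real.circleAverage_fun_add (circleIntegrable_const _ _ _) i4
  rw [e1, e4, Real.circleAverage_const]
  have e2 : Real.circleAverage (fun v => ‖g v‖ ^ 2 + L (g v)) 0 0.3 =
      Real.circleAverage (fun v => ‖g v‖ ^ 2) 0 0.3 + Real.circleAverage (fun v => L (g v)) 0 0.3 :=
    Real.circleAverage_fun_add i1 i2
  have e3 : Real.circleAverage (fun v => L (g v)) 0 0.3 = 0 := by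
    have := L.circleAverage_comp_comm i3
    rw [mean_eq hρ hg, h0, map_zero] at this
    exact this
  rw [e2, e3, add_zero]

/-- LC-7 -/
theorem eta_sq {F f : ℂ → ℂ} (hG : Good F) (hI : Inv F f) :
    Real.circleAverage (fun v => ‖f v - v‖ ^ 2) 0 0.3 ≤ 0.000352 := by
  obtain ⟨b3, b4, M, hb3, hb4, hM, hMb, hrep⟩ := rep hG hI
  have hρ : (0.3 : ℝ) < √3 / 4 := lt_trans (by norm_num) sqrt3_lower
  have hmaps : MapsTo f (ball 0 (√3 / 4)) (ball 0 1) := fun v hv => by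
    rw [mem_ball_zero_iff]
    exact (hI.lt v hv).trans inv_sqrt3_lt
  have hfd := hI.diff
  have hMf : DifferentiableOn ℂ (fun v => M (f v)) (ball 0 (√3 / 4)) := hM.comp hfd hmaps
  set Ψ : ℂ → ℂ := fun v => f v * M (f v) with hΨ
  have hΨd : DifferentiableOn ℂ Ψ (ball 0 (√3 / 4)) := hfd.mul hMf
  have hΨ0 : Ψ 0 = 0 := by simp [hΨ, hI.zero]
  set Φ : ℂ → ℂ := fun v => f v * (b4 + Ψ v) with hΦ
  have hΦd : DifferentiableOn ℂ Φ (ball 0 (√3 / 4)) := hfd.mul (hΨd.const_add b4)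
  have hΦ0 : Φ 0 = 0 := by simp [hΦ, hI.zero]
  have hsph : ∀ v ∈ sphere (0 : ℂ) |(0.3 : ℝ)|, ‖v‖ = 0.3 := fun v hv => by
    rw [mem_sphere_zero_iff_norm] at hv
    rw [hv, abs_of_pos (by norm_num)]
  have hfs : ∀ v ∈ sphere (0 : ℂ) |(0.3 : ℝ)|, ‖f v‖ ≤ 0.3158 := fun v hv =>
    Spec.f_le_30 hG hI (hsph v hv).le
  -- the three mean squares
  have m1 : Real.circleAverage (fun v => ‖Ψ v‖ ^ 2) 0 0.3 ≤ (0.3158 * 2.29) ^ 2 := by
    refine Real.circleAverage_mono_on_of_le_circle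
      (circleIntegrable_of hρ (hΨd.continuousOn.norm.pow 2)) (fun v hv => ?_)
    have h1 := hfs v hv
    have h2 : ‖M (f v)‖ ≤ 2.29 := hMb _ (h1.trans (by norm_num))
    have h3 : ‖Ψ v‖ ≤ 0.3158 * 2.29 := by
      rw [hΨ]
      simp only [norm_mul]
      exact mul_le_mul h1 h2 (norm_nonneg _) (by norm_num)
    exact pow_le_pow_left₀ (norm_nonneg _) h3 2
  have m2 : Real.circleAverage (fun v => ‖b4 + Ψ v‖ ^ 2) 0 0.3 ≤ 1.38 ^ 2 + (0.3158 * 2.29) ^ 2 := by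
    rw [mean_sq hρ hΨd hΨ0]
    exact add_le_add (pow_le_pow_left₀ (norm_nonneg _) hb4 2) m1
  have m3 : Real.circleAverage (fun v => ‖Φ v‖ ^ 2) 0 0.3 ≤
      0.3158 ^ 2 * (1.38 ^ 2 + (0.3158 * 2.29) ^ 2) := by
    have hi : CircleIntegrable (fun v => ‖b4 + Ψ v‖ ^ 2) 0 0.3 :=
      circleIntegrable_of hρ ((hΨd.const_add b4).continuousOn.norm.pow 2)
    have h1 : Real.circleAverage (fun v => ‖Φ v‖ ^ 2) 0 0.3 ≤
        Real.circleAverage (fun v => (0.3158 : ℝ) ^ 2 • ‖b4 + Ψ v‖ ^ 2) 0 0.3 := by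
      refine Real.circleAverage_mono (circleIntegrable_of hρ (hΦd.continuousOn.norm.pow 2))
        (hi.const_smul) (fun v hv => ?_)
      rw [smul_eq_mul, ← mul_pow]
      refine pow_le_pow_left₀ (norm_nonneg _) ?_ 2
      rw [hΦ]
      simp only [norm_mul]
      exact mul_le_mul_of_nonneg_right (hfs v hv) (norm_nonneg _)
    refine h1.trans ?_
    rw [Real.circleAverage_fun_smul, smul_eq_mul]
    exact mul_le_mul_of_nonneg_left m2 (by norm_num)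
  have m4 : Real.circleAverage (fun v => ‖b3 + Φ v‖ ^ 2) 0 0.3 ≤
      (1 / 3) ^ 2 + 0.3158 ^ 2 * (1.38 ^ 2 + (0.3158 * 2.29) ^ 2) := by
    rw [mean_sq hρ hΦd hΦ0]
    exact add_le_add (pow_le_pow_left₀ (norm_nonneg _) hb3 2) m3
  have hi : CircleIntegrable (fun v => ‖b3 + Φ v‖ ^ 2) 0 0.3 :=
    circleIntegrable_of hρ ((hΦd.const_add b3).continuousOn.norm.pow 2)
  have h1 : Real.circleAverage (fun v => ‖f v - v‖ ^ 2) 0 0.3 ≤
      Real.circleAverage (fun v => ((0.3158 : ℝ) ^ 3) ^ 2 • ‖b3 + Φ v‖ ^ 2) 0 0.3 := by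
    refine Real.circleAverage_mono (circleIntegrable_of hρ
      ((hfd.sub differentiableOn_id).continuousOn.norm.pow 2)) (hi.const_smul) (fun v hv => ?_)
    have hvb : v ∈ ball (0 : ℂ) (√3 / 4) := mem_ball_of_le (hsph v hv).le (by norm_num)
    rw [hrep v hvb, norm_neg, smul_eq_mul, ← mul_pow]
    refine pow_le_pow_left₀ (norm_nonneg _) ?_ 2
    have e : b3 + f v * (b4 + f v * M (f v)) = b3 + Φ v := rfl
    rw [e, norm_mul, norm_pow]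
    exact mul_le_mul_of_nonneg_right (pow_le_pow_left₀ (norm_nonneg _) (hfs v hv) 3)
      (norm_nonneg _)
  refine h1.trans ?_
  rw [Real.circleAverage_fun_smul, smul_eq_mul]
  refine (mul_le_mul_of_nonneg_left m4 (by norm_num)).trans ?_
  norm_num

end Pool.Agent.Helper30.LC
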